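import Pool.Agent.H525.EX.Stm

/-!
# Project EX (helper525), RC1: solution of the recurrence, `ε = 1` (helper337)
-/

set_option autoImplicit false

namespace Pool.Agent.H337.EX

open Pool.Agent.H525.EX

/-- the solution of the inhomogeneous equation -/
lemma g_eq (P : ℝ) (d : ℕ) (hd : 0 < d) (g : ℤ → ℝ) (h0 : ∀ n, n < 0 → g n = 0)
    (h : ∀ n : ℤ, g n - P * g (n - d) = (if n = 0 then 1 else 0) + (if n = d then P else 0)) :
    ∀ m : ℕ, g m = if m = 0 then 1 else if d ∣ m then 2 * P ^ (m / d) else 0 := by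
  intro m
  induction m using Nat.strong_induction_on with
  | _ m ih =>
    have hm := h m
    by_cases m0 : m = 0
    · subst m0
      rw [if_pos rfl]
      rw [h0 (((0 : ℕ) : ℤ) - d) (by push_cast; omega), if_pos (by simp),
        if_neg (by push_cast; omega)] at hm
      linarith
    · rw [if_neg m0]
      rw [if_neg (by exact_mod_cast m0)] at hm
      rcases lt_trichotomy m d with hlt | heq | hgt
      · rw [h0 ((m : ℤ) - d) (by omega), if_neg (by exact_mod_cast hlt.ne)] at hm
        rw [if_neg (fun hdm => absurd (Nat.le_of_dvd (Nat.pos_of_ne_zero m0) hdm) (by omega))]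
        linarith
      · subst heq
        have h1 := ih 0 (by omega)
        rw [if_pos rfl] at h1
        rw [sub_self, if_pos rfl] at hm
        rw [if_pos dvd_rfl, Nat.div_self hd, pow_one]
        have h2 : g 0 = 1 := by exact_mod_cast h1
        rw [h2] at hm
        linarith
      · have h1 := ih (m - d) (by omega)
        rw [if_neg (by omega)] at h1
        have e : ((m - d : ℕ) : ℤ) = (m : ℤ) - d := by omega
        rw [e] at h1
        rw [if_neg (show ¬ (m : ℤ) = d by exact_mod_cast hgt.ne'), h1] at hm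
        by_cases hdm : d ∣ m
        · have hdm' : d ∣ m - d := Nat.dvd_sub hdm dvd_rfl
          rw [if_pos hdm'] at hm
          rw [if_pos hdm]
          have e2 : m / d = (m - d) / d + 1 := by
            rw [Nat.div_eq_sub_div hd hgt.le]
          rw [e2, pow_succ]
          linarith
        · have hdm' : ¬ d ∣ m - d := by
            intro h2
            apply hdm
            have h3 := Nat.dvd_add h2 (dvd_refl d)
            rwa [Nat.sub_add_cancel hgt.le] at h3
          rw [if_neg hdm'] at hm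
          rw [if_neg hdm]
          linarith

/-- iteration of the recurrence -/
lemma iter (P : ℝ) (D g : ℕ → ℤ → ℝ)
    (h : ∀ (s : ℕ) (n : ℤ), g s n = D s n + P * D (s + 1) (n - (2 * s + 2))) (n : ℤ) :
    ∀ N : ℕ, D 0 n = ∑ i ∈ Finset.range N, (-P) ^ i * g i (n - i * (i + 1)) +
      (-P) ^ N * D N (n - N * (N + 1)) := by
  intro N
  induction N with
  | zero => simp
  | succ N ih =>
    rw [Finset.sum_range_succ, ih, h N]
    have e : n - N * (N + 1) - (2 * N + 2) = n - ((N + 1 : ℕ) : ℤ) * (((N + 1 : ℕ) : ℤ) + 1) := by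
      push_cast
      ring
    rw [e, pow_succ]
    ring

theorem t_r1 : S_r1 := by
  intro P D hD hrec n
  obtain ⟨g, hg⟩ : ∃ g : ℕ → ℤ → ℝ, ∀ (s : ℕ) (n : ℤ),
      g s n = D s n + P * D (s + 1) (n - (2 * s + 2)) := ⟨_, fun s n => rfl⟩
  have hg0 : ∀ (s : ℕ) (n : ℤ), n < 0 → g s n = 0 := by
    intro s n hn
    rw [hg, hD s n hn, hD (s + 1) _ (by omega)]
    ring
  have hgr : ∀ (s : ℕ) (n : ℤ), g s n - P * g s (n - ((2 * s + 1 : ℕ) : ℤ)) =
      (if n = 0 then 1 else 0) + (if n = ((2 * s + 1 : ℕ) : ℤ) then P else 0) := by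
    intro s n
    have h1 := hrec s n
    rw [hg, hg]
    push_cast
    have e : n - (2 * (s : ℤ) + 1) - (2 * s + 2) = n - (4 * s + 3) := by ring
    rw [e]
    linarith
  have hgs := fun s => g_eq P (2 * s + 1) (by omega) (g s) (hg0 s) (hgr s)
  rw [iter P D g hg n (n + 1), hD (n + 1) _ (by push_cast; nlinarith), mul_zero, add_zero]
  unfold Cc
  refine Finset.sum_congr rfl fun i _ => ?_
  by_cases h1 : i * (i + 1) ≤ n
  · have e : (n : ℤ) - i * (i + 1) = ((n - i * (i + 1) : ℕ) : ℤ) := by
      rw [Nat.cast_sub h1]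
      push_cast
      ring
    rw [e, hgs i]
    by_cases h2 : n = i * (i + 1)
    · have h3 : n - i * (i + 1) = 0 := by omega
      rw [if_pos h3, if_pos ⟨h1, by rw [h3]; exact dvd_zero _⟩, if_pos h2, h3, Nat.zero_div,
        add_zero, one_pow, neg_pow]
      ring
    · have h3 : n - i * (i + 1) ≠ 0 := by omega
      rw [if_neg h3]
      by_cases h4 : (2 * i + 1) ∣ (n - i * (i + 1))
      · rw [if_pos h4, if_pos ⟨h1, h4⟩, if_neg h2, one_pow, one_pow, neg_pow, pow_add]
        ring
      · rw [if_neg h4, if_neg (fun h => h4 h.2), mul_zero]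
  · rw [if_neg (fun h => h1 h.1)]
    have h2 : (n : ℤ) < (i : ℤ) * (i + 1) := by exact_mod_cast not_le.1 h1
    rw [hg0 i _ (by linarith), mul_zero]

end Pool.Agent.H337.EX
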